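import Mathlib
import Pool.Agent.N176.OW.Stm3

set_option autoImplicit false

/-!
# OW/P4: the Poisson law (helper401)
-/

namespace Pool.Agent.N401.OW

open Finset Filter Topology MeasureTheory

section generic

variable {b : ℕ} {nb : ℝ → ℕ → ℕ} {rp : ℕ → ℕ → Prop}

open Classical in
/-- the number of the elements of `T` with the property `rp` -/
noncomputable def ct (nb : ℝ → ℕ → ℕ) (rp : ℕ → ℕ → Prop) (T : Finset ℕ) (β : ℝ) : ℕ :=
  (T.filter (fun p => rp p (nb β p))).card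

open Classical in
/-- the same number as a function of an integer of level `t` -/
noncomputable def hc (rp : ℕ → ℕ → Prop) (T : Finset ℕ) (b t n : ℕ) : ℕ :=
  (T.filter (fun p => rp p (n / b ^ (t - p)))).card

/-- the amplitudes in a `b`-adic interval with `k` hits -/
def Sk (nb : ℝ → ℕ → ℕ) (rp : ℕ → ℕ → Prop) (T : Finset ℕ) (b m A B k : ℕ) : Set ℝ :=
  {β : ℝ | (A : ℝ) / (b : ℝ) ^ m < β ∧ β ≤ (B : ℝ) / (b : ℝ) ^ m ∧ ct nb rp T β = k}

theorem ct_eq (hdiv : ∀ β : ℝ, 0 < β → ∀ p t : ℕ, p ≤ t → nb β t / b ^ (t - p) = nb β p)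
    {T : Finset ℕ} {t : ℕ} (hT : ∀ p ∈ T, p ≤ t) {β : ℝ} (hβ : 0 < β) :
    ct nb rp T β = hc rp T b t (nb β t) := by
  classical
  unfold ct hc
  congr 1
  refine Finset.filter_congr fun p hp => ?_
  rw [hdiv β hβ p t (hT p hp)]

open Classical in
/-- the measure as a mean -/
theorem Sk_vol (hb : 2 ≤ b)
    (hspec : ∀ β : ℝ, 0 < β → ∀ p : ℕ, (nb β p : ℝ) < β * (b : ℝ) ^ p ∧
      β * (b : ℝ) ^ p ≤ nb β p + 1)
    (hdiv : ∀ β : ℝ, 0 < β → ∀ p t : ℕ, p ≤ t → nb β t / b ^ (t - p) = nb β p)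
    {T : Finset ℕ} {m A B t : ℕ} (hmt : m ≤ t) (hT : ∀ p ∈ T, p ≤ t) (k : ℕ) :
    (volume (Sk nb rp T b m A B k)).toReal =
      (∑ n ∈ Ico (A * b ^ (t - m)) (B * b ^ (t - m)),
        if hc rp T b t n = k then (1 : ℝ) else 0) / (b : ℝ) ^ t := by
  have hb0 : (0 : ℝ) < b := by positivity
  have hbt : (0 : ℝ) < (b : ℝ) ^ t := by positivity
  have hbm : (0 : ℝ) < (b : ℝ) ^ m := by positivity
  have hpow : (b : ℝ) ^ t = (b : ℝ) ^ (t - m) * (b : ℝ) ^ m := by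
    rw [← pow_add, Nat.sub_add_cancel hmt]
  set F := (Ico (A * b ^ (t - m)) (B * b ^ (t - m))).filter (fun n => hc rp T b t n = k) with hF
  have hset : Sk nb rp T b m A B k =
      ⋃ n ∈ F, Set.Ioc ((n : ℝ) / (b : ℝ) ^ t) (((n : ℝ) + 1) / (b : ℝ) ^ t) := by
    ext β
    simp only [Set.mem_iUnion, Set.mem_Ioc, exists_prop]
    constructor
    · rintro ⟨h1, h2, h3⟩
      have hβ : 0 < β := lt_of_le_of_lt (by positivity) h1
      obtain ⟨h4, h5⟩ := hspec β hβ t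
      refine ⟨nb β t, ?_, ?_, ?_⟩
      · rw [hF, mem_filter, mem_Ico]
        refine ⟨⟨?_, ?_⟩, ?_⟩
        · rw [div_lt_iff₀ hbm] at h1
          have h6 : ((A * b ^ (t - m) : ℕ) : ℝ) < ((nb β t + 1 : ℕ) : ℝ) := by
            push_cast
            calc (A : ℝ) * (b : ℝ) ^ (t - m) < β * (b : ℝ) ^ m * (b : ℝ) ^ (t - m) :=
                  mul_lt_mul_of_pos_right h1 (by positivity)
              _ = β * (b : ℝ) ^ t := by rw [hpow]; ring
              _ ≤ _ := h5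
          have h7 : A * b ^ (t - m) < nb β t + 1 := by exact_mod_cast h6
          omega
        · rw [le_div_iff₀ hbm] at h2
          have h6 : ((nb β t : ℕ) : ℝ) < ((B * b ^ (t - m) : ℕ) : ℝ) := by
            push_cast
            calc (nb β t : ℝ) < β * (b : ℝ) ^ t := h4
              _ = β * (b : ℝ) ^ m * (b : ℝ) ^ (t - m) := by rw [hpow]; ring
              _ ≤ B * (b : ℝ) ^ (t - m) := mul_le_mul_of_nonneg_right h2 (by positivity)
          exact_mod_cast h6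
        · rw [← ct_eq hdiv hT hβ]; exact h3
      · rw [div_lt_iff₀ hbt]; exact h4
      · rw [le_div_iff₀ hbt]; exact h5
    · rintro ⟨n, hn, h1, h2⟩
      rw [hF, mem_filter, mem_Ico] at hn
      obtain ⟨⟨hn1, hn2⟩, hn3⟩ := hn
      rw [div_lt_iff₀ hbt] at h1
      rw [le_div_iff₀ hbt] at h2
      have h3 : (A : ℝ) * (b : ℝ) ^ (t - m) ≤ n := by exact_mod_cast hn1
      have h4 : (n : ℝ) + 1 ≤ B * (b : ℝ) ^ (t - m) := by exact_mod_cast hn2
      have hpm : (0 : ℝ) < (b : ℝ) ^ (t - m) := by positivity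
      have h5 : (A : ℝ) / (b : ℝ) ^ m < β := by
        rw [div_lt_iff₀ hbm]
        have h6 : (A : ℝ) * (b : ℝ) ^ (t - m) < β * (b : ℝ) ^ m * (b : ℝ) ^ (t - m) := by
          calc (A : ℝ) * (b : ℝ) ^ (t - m) ≤ n := h3
            _ < β * (b : ℝ) ^ t := h1
            _ = _ := by rw [hpow]; ring
        exact lt_of_mul_lt_mul_right h6 hpm.le
      have hβ : 0 < β := lt_of_le_of_lt (by positivity) h5
      refine ⟨h5, ?_, ?_⟩
      · rw [le_div_iff₀ hbm]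
        have h6 : β * (b : ℝ) ^ m * (b : ℝ) ^ (t - m) ≤ (B : ℝ) * (b : ℝ) ^ (t - m) := by
          calc β * (b : ℝ) ^ m * (b : ℝ) ^ (t - m) = β * (b : ℝ) ^ t := by rw [hpow]; ring
            _ ≤ n + 1 := h2
            _ ≤ _ := h4
        exact le_of_mul_le_mul_right h6 hpm
      · rw [ct_eq hdiv hT hβ]
        obtain ⟨h7, h8⟩ := hspec β hβ t
        have h9 : (nb β t : ℝ) < n + 1 := lt_of_lt_of_le h7 h2
        have h10 : (n : ℝ) < nb β t + 1 := lt_of_lt_of_le h1 h8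
        have h11 : nb β t < n + 1 := by exact_mod_cast h9
        have h12 : n < nb β t + 1 := by exact_mod_cast h10
        have h13 : nb β t = n := by omega
        rw [h13]; exact hn3
  have hdisj : (F : Set ℕ).PairwiseDisjoint
      (fun n : ℕ => Set.Ioc ((n : ℝ) / (b : ℝ) ^ t) (((n : ℝ) + 1) / (b : ℝ) ^ t)) := by
    intro n _ n' _ hne
    rw [Function.onFun, Set.disjoint_left]
    intro β h1 h2
    apply hne
    have h3 := (div_lt_iff₀ hbt).1 h1.1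
    have h4 := (le_div_iff₀ hbt).1 h1.2
    have h5 := (div_lt_iff₀ hbt).1 h2.1
    have h6 := (le_div_iff₀ hbt).1 h2.2
    have h7 : (n : ℝ) < n' + 1 := by linarith
    have h8 : (n' : ℝ) < n + 1 := by linarith
    have h9 : n < n' + 1 := by exact_mod_cast h7
    have h10 : n' < n + 1 := by exact_mod_cast h8
    omega
  rw [hset, measure_biUnion_finset hdisj fun _ _ => measurableSet_Ioc]
  simp_rw [Real.volume_Ioc]
  rw [ENNReal.toReal_sum fun _ _ => ENNReal.ofReal_ne_top, ← Finset.sum_filter, ← hF,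
    Finset.sum_div]
  refine Finset.sum_congr rfl fun n _ => ?_
  rw [ENNReal.toReal_ofReal (by
    rw [← sub_div]
    have : (n : ℝ) + 1 - n = 1 := by ring
    rw [this]; positivity), ← sub_div]
  congr 1
  ring

open Classical in
/-- generating functions -/
theorem gen_hasSum {T : Finset ℕ} {F : Finset ℕ} {t : ℕ} {c : ℝ} (g : ℕ → ℝ) :
    HasSum (fun k => (∑ n ∈ F, if hc rp T b t n = k then (1 : ℝ) else 0) / c * g k)
      ((∑ n ∈ F, g (hc rp T b t n)) / c) := by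
  have h1 : HasSum (fun k => ∑ n ∈ F, (if hc rp T b t n = k then (1 : ℝ) else 0) / c * g k)
      (∑ n ∈ F, g (hc rp T b t n) / c) := by
    refine hasSum_sum fun n _ => ?_
    have h2 := hasSum_ite_eq (hc rp T b t n) (g (hc rp T b t n) / c)
    refine h2.congr_fun ?_
    intro k
    by_cases h : hc rp T b t n = k
    · rw [if_pos h, if_pos h.symm, h]; ring
    · rw [if_neg h, if_neg fun h' => h h'.symm]; ring
  rw [← Finset.sum_div] at h1
  convert h1 using 2 with k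
  rw [Finset.sum_div, Finset.sum_mul]

/-- the total mass -/
theorem sum_one {m A B t : ℕ} (hb : 2 ≤ b) (hAB : A < B) (hmt : m ≤ t) :
    (∑ _n ∈ Ico (A * b ^ (t - m)) (B * b ^ (t - m)), (1 : ℝ)) / (b : ℝ) ^ t =
      ((B : ℝ) - A) / (b : ℝ) ^ m := by
  have hb0 : (0 : ℝ) < b := by positivity
  have hpow : (b : ℝ) ^ t = (b : ℝ) ^ (t - m) * (b : ℝ) ^ m := by
    rw [← pow_add, Nat.sub_add_cancel hmt]
  rw [Finset.sum_const, Nat.card_Ico, nsmul_eq_mul, mul_one,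
    Nat.cast_sub (Nat.mul_le_mul_right _ hAB.le)]
  push_cast
  rw [hpow]
  field_simp

/-- the Poisson limit on a `b`-adic interval -/
theorem badic (hb : 2 ≤ b)
    (hspec : ∀ β : ℝ, 0 < β → ∀ p : ℕ, (nb β p : ℝ) < β * (b : ℝ) ^ p ∧
      β * (b : ℝ) ^ p ≤ nb β p + 1)
    (hdiv : ∀ β : ℝ, 0 < β → ∀ p t : ℕ, p ≤ t → nb β t / b ^ (t - p) = nb β p)
    (hP3 : ∀ (f : ℕ → ℕ → ℝ) (μ lam : ℝ), 0 ≤ lam → (∀ n k, 0 ≤ f n k) →
      (∀ n, HasSum (f n) μ) →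
      (∀ θ : ℝ, 0 ≤ θ → θ ≤ 1 → Tendsto (fun n => ∑' k, f n k * θ ^ k) atTop
        (𝓝 (μ * Real.exp (-(lam * (1 - θ)))))) →
      ∀ k : ℕ, Tendsto (fun n => f n k) atTop (𝓝 (μ * (Real.exp (-lam) * lam ^ k / k.factorial))))
    {T : ℕ → Finset ℕ} {m A B : ℕ} (hAB : A < B) {lam : ℝ} (hlam : 0 ≤ lam)
    (hgf : ∀ θ : ℝ, 0 ≤ θ → θ ≤ 1 → ∀ η : ℝ, 0 < η → ∀ᶠ n in atTop, ∃ t : ℕ, m ≤ t ∧
      (∀ p ∈ T n, p ≤ t) ∧ |(∑ N ∈ Ico (A * b ^ (t - m)) (B * b ^ (t - m)),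
        θ ^ hc rp (T n) b t N) / (b : ℝ) ^ t -
        ((B : ℝ) - A) / (b : ℝ) ^ m * Real.exp (-(lam * (1 - θ)))| < η) (k : ℕ) :
    Tendsto (fun n => (volume (Sk nb rp (T n) b m A B k)).toReal) atTop
      (𝓝 (((B : ℝ) - A) / (b : ℝ) ^ m * (Real.exp (-lam) * lam ^ k / k.factorial))) := by
  classical
  refine hP3 (fun n k => (volume (Sk nb rp (T n) b m A B k)).toReal) _ lam hlam
    (fun _ _ => ENNReal.toReal_nonneg) (fun n => ?_) (fun θ h0 h1 => ?_) k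
  · have hT : ∀ p ∈ T n, p ≤ max m ((T n).sup id) := fun p hp =>
      (Finset.le_sup (f := id) hp).trans (le_max_right _ _)
    have h1 := gen_hasSum (b := b) (rp := rp) (T := T n)
      (F := Ico (A * b ^ (max m ((T n).sup id) - m)) (B * b ^ (max m ((T n).sup id) - m)))
      (t := max m ((T n).sup id)) (c := (b : ℝ) ^ (max m ((T n).sup id))) (fun _ => 1)
    rw [sum_one hb hAB (le_max_left _ _)] at h1
    refine h1.congr_fun fun k => ?_
    rw [Sk_vol hb hspec hdiv (le_max_left _ _) hT, mul_one]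
  · rw [Metric.tendsto_nhds]
    intro η hη
    filter_upwards [hgf θ h0 h1 η hη] with n hn
    obtain ⟨t, hmt, hT, hlt⟩ := hn
    have h2 := gen_hasSum (b := b) (rp := rp) (T := T n)
      (F := Ico (A * b ^ (t - m)) (B * b ^ (t - m))) (t := t) (c := (b : ℝ) ^ t)
      (fun k => θ ^ k)
    have h3 : ∑' k, (volume (Sk nb rp (T n) b m A B k)).toReal * θ ^ k =
        (∑ N ∈ Ico (A * b ^ (t - m)) (B * b ^ (t - m)), θ ^ hc rp (T n) b t N) / (b : ℝ) ^ t := by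
      rw [← h2.tsum_eq]
      refine tsum_congr fun k => ?_
      rw [Sk_vol hb hspec hdiv hmt hT]
    rw [h3, Real.dist_eq]
    exact hlt

/-- from `b`-adic intervals to all intervals -/
theorem all_intervals (hb : 2 ≤ b) {T : ℕ → Finset ℕ} {k : ℕ} {L : ℝ} (hL0 : 0 ≤ L) (hL1 : L ≤ 1)
    (h : ∀ m A B : ℕ, 1 ≤ A → A < B →
      Tendsto (fun n => (volume (Sk nb rp (T n) b m A B k)).toReal) atTop
        (𝓝 (((B : ℝ) - A) / (b : ℝ) ^ m * L))) {u v : ℝ} (hu : 0 ≤ u) (huv : u < v) :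
    Tendsto (fun n => (volume {β : ℝ | u < β ∧ β ≤ v ∧ ct nb rp (T n) β = k}).toReal) atTop
      (𝓝 ((v - u) * L)) := by
  rw [Metric.tendsto_nhds]
  intro ε hε
  have hb1 : (1 : ℝ) < b := by exact_mod_cast hb
  have hb0 : (0 : ℝ) < b := by linarith
  obtain ⟨m, hm⟩ := exists_pow_lt_of_lt_one (y := (b : ℝ)⁻¹)
    (lt_min (by positivity : 0 < ε / 8) (by linarith : 0 < (v - u) / 4)) (inv_lt_one_of_one_lt₀ hb1)
  rw [inv_pow, lt_min_iff] at hm
  obtain ⟨hm1, hm2⟩ := hm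
  have hbm : (0 : ℝ) < (b : ℝ) ^ m := by positivity
  have he : ((b : ℝ) ^ m)⁻¹ * (b : ℝ) ^ m = 1 := inv_mul_cancel₀ hbm.ne'
  obtain ⟨A, hA⟩ : ∃ A : ℕ, A = ⌊u * (b : ℝ) ^ m⌋₊ + 1 := ⟨_, rfl⟩
  obtain ⟨B, hB⟩ : ∃ B : ℕ, B = ⌊v * (b : ℝ) ^ m⌋₊ := ⟨_, rfl⟩
  have hv : 0 ≤ v := hu.trans huv.le
  have hA1 : u * (b : ℝ) ^ m < A := by
    rw [hA]; push_cast; exact Nat.lt_floor_add_one _
  have hA2 : (A : ℝ) ≤ u * (b : ℝ) ^ m + 1 := by
    rw [hA]; push_cast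
    linarith [Nat.floor_le (by positivity : 0 ≤ u * (b : ℝ) ^ m)]
  have hB1 : (B : ℝ) ≤ v * (b : ℝ) ^ m := by
    rw [hB]; exact Nat.floor_le (by positivity)
  have hB2 : v * (b : ℝ) ^ m < B + 1 := by
    rw [hB]; exact Nat.lt_floor_add_one _
  have hAB' : (A : ℝ) < B := by
    have h1 : ((b : ℝ) ^ m)⁻¹ * (b : ℝ) ^ m < (v - u) / 4 * (b : ℝ) ^ m :=
      mul_lt_mul_of_pos_right hm2 hbm
    rw [he] at h1
    nlinarith
  have hAB : A < B := by exact_mod_cast hAB'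
  have hA0 : 1 ≤ A := by omega
  have ha1 : u < (A : ℝ) / (b : ℝ) ^ m := by rw [lt_div_iff₀ hbm]; exact hA1
  have ha2 : (A : ℝ) / (b : ℝ) ^ m ≤ u + ((b : ℝ) ^ m)⁻¹ := by
    rw [div_le_iff₀ hbm, add_mul, he]; exact hA2
  have hb1' : (B : ℝ) / (b : ℝ) ^ m ≤ v := by rw [div_le_iff₀ hbm]; exact hB1
  have hb2' : v - ((b : ℝ) ^ m)⁻¹ < (B : ℝ) / (b : ℝ) ^ m := by
    rw [lt_div_iff₀ hbm, sub_mul, he]; linarith
  filter_upwards [(Metric.tendsto_nhds.1 (h m A B hA0 hAB)) (ε / 8) (by positivity)] with n hn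
  rw [Real.dist_eq] at hn ⊢
  have hfin : volume (Set.Ioc u v) ≠ ⊤ := by simp
  have hX : {β : ℝ | u < β ∧ β ≤ v ∧ ct nb rp (T n) β = k} ⊆ Set.Ioc u v :=
    fun β hβ => ⟨hβ.1, hβ.2.1⟩
  have hXfin : volume {β : ℝ | u < β ∧ β ≤ v ∧ ct nb rp (T n) β = k} ≠ ⊤ :=
    ((measure_mono hX).trans_lt hfin.lt_top).ne
  have hYX : Sk nb rp (T n) b m A B k ⊆ {β : ℝ | u < β ∧ β ≤ v ∧ ct nb rp (T n) β = k} :=
    fun β hβ => ⟨ha1.trans hβ.1, hβ.2.1.trans hb1', hβ.2.2⟩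
  have hYfin : volume (Sk nb rp (T n) b m A B k) ≠ ⊤ :=
    ((measure_mono hYX).trans_lt hXfin.lt_top).ne
  have h1 : (volume (Sk nb rp (T n) b m A B k)).toReal ≤
      (volume {β : ℝ | u < β ∧ β ≤ v ∧ ct nb rp (T n) β = k}).toReal :=
    ENNReal.toReal_mono hXfin (measure_mono hYX)
  have hsub : {β : ℝ | u < β ∧ β ≤ v ∧ ct nb rp (T n) β = k} ⊆
      Sk nb rp (T n) b m A B k ∪ (Set.Ioc u ((A : ℝ) / (b : ℝ) ^ m) ∪
        Set.Ioc ((B : ℝ) / (b : ℝ) ^ m) v) := by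
    rintro β ⟨h2, h3, h4⟩
    by_cases h5 : β ≤ (A : ℝ) / (b : ℝ) ^ m
    · exact Or.inr (Or.inl ⟨h2, h5⟩)
    · by_cases h6 : β ≤ (B : ℝ) / (b : ℝ) ^ m
      · exact Or.inl ⟨not_le.1 h5, h6, h4⟩
      · exact Or.inr (Or.inr ⟨not_le.1 h6, h3⟩)
  have h2 : (volume {β : ℝ | u < β ∧ β ≤ v ∧ ct nb rp (T n) β = k}).toReal ≤
      (volume (Sk nb rp (T n) b m A B k)).toReal + (((A : ℝ) / (b : ℝ) ^ m - u) +
        (v - (B : ℝ) / (b : ℝ) ^ m)) := by
    have h3 : volume {β : ℝ | u < β ∧ β ≤ v ∧ ct nb rp (T n) β = k} ≤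
        volume (Sk nb rp (T n) b m A B k) + (volume (Set.Ioc u ((A : ℝ) / (b : ℝ) ^ m)) +
          volume (Set.Ioc ((B : ℝ) / (b : ℝ) ^ m) v)) := by
      refine (measure_mono hsub).trans ((measure_union_le _ _).trans ?_)
      gcongr
      exact measure_union_le _ _
    rw [Real.volume_Ioc, Real.volume_Ioc,
      ← ENNReal.ofReal_add (by linarith) (by linarith)] at h3
    have h4 := ENNReal.toReal_mono (by finiteness) h3
    rwa [ENNReal.toReal_add hYfin ENNReal.ofReal_ne_top,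
      ENNReal.toReal_ofReal (by linarith)] at h4
  have h3 : ((B : ℝ) - A) / (b : ℝ) ^ m = (B : ℝ) / (b : ℝ) ^ m - (A : ℝ) / (b : ℝ) ^ m :=
    sub_div _ _ _
  rw [h3] at hn
  rw [abs_lt] at hn ⊢
  have h4 : 0 ≤ (v - u) - ((B : ℝ) / (b : ℝ) ^ m - (A : ℝ) / (b : ℝ) ^ m) := by linarith
  have h5 : (v - u) - ((B : ℝ) / (b : ℝ) ^ m - (A : ℝ) / (b : ℝ) ^ m) ≤
      2 * ((b : ℝ) ^ m)⁻¹ := by linarith
  have h6 : ((v - u) - ((B : ℝ) / (b : ℝ) ^ m - (A : ℝ) / (b : ℝ) ^ m)) * L ≤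
      2 * ((b : ℝ) ^ m)⁻¹ := by
    nlinarith
  have h7 : 0 ≤ ((v - u) - ((B : ℝ) / (b : ℝ) ^ m - (A : ℝ) / (b : ℝ) ^ m)) * L :=
    mul_nonneg h4 hL0
  constructor <;> nlinarith

end generic

section final

open Pool.Agent.N176.OW
open Pool.Agent.N176.GP (cnt XX NB MB NB_spec NB_div)
open Pool.Agent.H305R2 (roughPart)

theorem p4 (h2 : S_P2) (h3 : S_P3) : S_P4 := by
  classical
  intro b hb T hTp hTM hTδ hE lam hlam u v hu huv k
  have hb0 : (0 : ℝ) < b := by positivity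
  have hb1 : (1 : ℝ) < b := by exact_mod_cast hb
  have hkap : 0 < kap b := by
    unfold kap
    exact div_pos (Real.exp_pos _) (Real.log_pos hb1)
  have hlam0 : 0 ≤ lam := by
    refine ge_of_tendsto' hlam fun n => mul_nonneg hkap.le (Finset.sum_nonneg fun p hp => ?_)
    have h1 : 1 ≤ p := (hTp n p hp).one_lt.le
    exact div_nonneg (Real.log_nonneg (by exact_mod_cast h1)) (Nat.cast_nonneg _)
  obtain ⟨rp, hrp⟩ : ∃ rp : ℕ → ℕ → Prop, rp = fun p n => (roughPart p n).Prime := ⟨_, rfl⟩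
  have hct : ∀ (S : Finset ℕ) (β : ℝ),
      (S.filter (fun p => (roughPart p (NB b β p)).Prime)).card = ct (NB b) rp S β := by
    intro S β
    unfold ct
    subst hrp
    congr
  have hhc : ∀ (S : Finset ℕ) (t n : ℕ), (hits S b t n).card = hc rp S b t n := by
    intro S t n
    unfold hits hc
    subst hrp
    congr
  simp_rw [hct]
  have hL0 : 0 ≤ Real.exp (-lam) * lam ^ k / k.factorial := by positivity
  have hL1 : Real.exp (-lam) * lam ^ k / k.factorial ≤ 1 := by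
    have h4 := Real.pow_div_factorial_le_exp lam hlam0 k
    calc Real.exp (-lam) * lam ^ k / k.factorial = Real.exp (-lam) * (lam ^ k / k.factorial) := by
          ring
      _ ≤ Real.exp (-lam) * Real.exp lam := mul_le_mul_of_nonneg_left h4 (Real.exp_pos _).le
      _ = 1 := by rw [← Real.exp_add]; simp
  refine all_intervals (nb := NB b) (rp := rp) hb hL0 hL1 (fun m A B hA hAB => ?_) hu huv
  refine badic hb (fun β hβ p => NB_spec hb hβ p) (fun β hβ p t hpt => NB_div hb hβ hpt) h3 hAB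
    hlam0 (fun θ h0 h1 η hη => ?_) k
  obtain ⟨C, hC, P, hP⟩ := h2 b hb m A B hA hAB
  have hVT : Tendsto (fun n => VT (T n)) atTop (𝓝 (lam / kap b)) := by
    refine (hlam.div_const (kap b)).congr fun n => ?_
    rw [mul_div_cancel_left₀ _ hkap.ne']
    rfl
  obtain ⟨V0, hV0⟩ : ∃ V0 : ℝ, V0 = lam / kap b + 1 := ⟨_, rfl⟩
  have hV0pos : 0 < V0 := by rw [hV0]; positivity
  obtain ⟨δ, hδ⟩ : ∃ δ : ℝ, δ = min (1 / 10) (η / (8 * C * V0)) := ⟨_, rfl⟩
  have hδ0 : 0 < δ := by rw [hδ]; exact lt_min (by norm_num) (by positivity)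
  have hδ1 : δ ≤ 1 / 10 := by rw [hδ]; exact min_le_left _ _
  have hδ2 : C * (δ * V0) ≤ η / 8 := by
    have h4 : δ ≤ η / (8 * C * V0) := by rw [hδ]; exact min_le_right _ _
    rw [le_div_iff₀ (by positivity)] at h4
    linarith
  obtain ⟨P', hP'⟩ : ∃ P' : ℕ, P' = max (max P 1) ⌈8 * C * (V0 + 1) / η⌉₊ := ⟨_, rfl⟩
  have hP'1 : P ≤ P' := by rw [hP']; exact (le_max_left _ _).trans (le_max_left _ _)
  have hP'2 : 1 ≤ P' := by rw [hP']; exact (le_max_right _ _).trans (le_max_left _ _)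
  have hP'0 : (0 : ℝ) < P' := by exact_mod_cast hP'2
  have hP'3 : C * ((V0 + 1) / P') ≤ η / 8 := by
    have h4 : 8 * C * (V0 + 1) / η ≤ P' := by
      refine (Nat.le_ceil _).trans ?_
      rw [hP']
      exact_mod_cast le_max_right _ _
    rw [div_le_iff₀ hη] at h4
    rw [mul_div_assoc', div_le_iff₀ hP'0]
    linarith
  have hlim : Tendsto (fun n => ((B : ℝ) - A) / (b : ℝ) ^ m *
      Real.exp (-((1 - θ) * (kap b * VT (T n))))) atTop
      (𝓝 (((B : ℝ) - A) / (b : ℝ) ^ m * Real.exp (-((1 - θ) * lam)))) := by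
    have h4 : Continuous fun x : ℝ => ((B : ℝ) - A) / (b : ℝ) ^ m *
        Real.exp (-((1 - θ) * x)) := by fun_prop
    exact (h4.tendsto lam).comp hlam
  filter_upwards [hVT.eventually_le_const (show lam / kap b < V0 by rw [hV0]; linarith),
    hTM (2 ^ P'), hTδ δ hδ0, hE.eventually_lt_const (show (0 : ℝ) < η / (8 * C) by positivity),
    (Metric.tendsto_nhds.1 hlim) (η / 2) (by positivity)] with n e1 e2 e3 e4 e5
  obtain ⟨J, hJ⟩ : ∃ J : ℕ, J = max (max P' m) ((T n).sup id) := ⟨_, rfl⟩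
  have hJP : P' ≤ J := by rw [hJ]; exact (le_max_left _ _).trans (le_max_left _ _)
  have hJm : m ≤ J := by rw [hJ]; exact (le_max_right _ _).trans (le_max_left _ _)
  have hJT : ∀ p ∈ T n, p ≤ J := fun p hp => by
    rw [hJ]; exact (Finset.le_sup (f := id) hp).trans (le_max_right _ _)
  have hJ2 : J ≤ 2 ^ J := Nat.lt_two_pow_self.le
  refine ⟨2 ^ J, hJm.trans hJ2, fun p hp => (hJT p hp).trans hJ2, ?_⟩
  have h4 := hP P' hP'1 J (T n) (fun p hp => ⟨hTp n p hp, e2 p hp, (hJT p hp).trans hJ2⟩) hJP δ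
    hδ0.le hδ1 (fun i => by
      have h5 := e3 (2 ^ i)
      unfold VT TB
      rw [pow_succ, mul_comm (2 ^ i) 2]
      exact h5) θ h0 h1
  unfold Av at h4
  simp_rw [hhc] at h4
  rw [Real.dist_eq] at e5
  have h5 : C * (δ * VT (T n) + (VT (T n) + 1) / P' + ∑ q ∈ T n,
      ∑ p ∈ (T n).filter (fun p => p < q), Real.log p / p / (b : ℝ) ^ (q - p)) ≤ 3 * η / 8 := by
    have h6 : C * (δ * VT (T n)) ≤ C * (δ * V0) := by gcongr
    have h7 : C * ((VT (T n) + 1) / P') ≤ C * ((V0 + 1) / P') := by gcongr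
    rw [lt_div_iff₀ (by positivity)] at e4
    rw [mul_add, mul_add]
    linarith
  have h8 : (1 - θ) * lam = lam * (1 - θ) := by ring
  rw [h8] at e5
  have h9 := abs_sub_le ((∑ N ∈ Ico (A * b ^ (2 ^ J - m)) (B * b ^ (2 ^ J - m)),
    θ ^ hc rp (T n) b (2 ^ J) N) / (b : ℝ) ^ (2 ^ J))
    (((B : ℝ) - A) / (b : ℝ) ^ m * Real.exp (-((1 - θ) * (kap b * VT (T n)))))
    (((B : ℝ) - A) / (b : ℝ) ^ m * Real.exp (-(lam * (1 - θ))))
  linarith

end final

end Pool.Agent.N401.OW
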